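import Pool.Agent.Work.MP_9999b5_mr.Interface

/-!
# MP_9999b5_co: the abstract chain (reduction of helper39), `n = 4k + T`

`N` = negative block, `L` = light union (arbitrary predicates). Two local inequalities QL, HL on the sets of
`2k + T` elements give the bound `k/(4k+T)` for the fraction of the blocks which are not negative.
-/

set_option autoImplicit false

namespace Pool.Agent.Work.MP_9999b5_ch

open Finset
open Pool.Agent.Work.MP_9999b5_mr (prs)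

variable {ι : Type} [DecidableEq ι]

theorem mem_prs (C : Finset ι) (k : ℕ) (p : Finset ι × Finset ι) :
    p ∈ prs C k ↔ (p.1 ⊆ C ∧ p.1.card = k) ∧ (p.2 ⊆ C ∧ p.2.card = k) ∧ Disjoint p.1 p.2 := by
  simp only [prs, mem_filter, mem_product, mem_powersetCard]
  tauto

/-- number of the pairs with both members negative -/
noncomputable def nnC (N : Finset ι → Prop) [DecidablePred N] (C : Finset ι) (k : ℕ) : ℕ :=
  ((prs C k).filter (fun p => N p.1 ∧ N p.2)).card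

/-- number of the pairs with light union -/
noncomputable def hhC (L : Finset ι → Prop) [DecidablePred L] (C : Finset ι) (k : ℕ) : ℕ :=
  ((prs C k).filter (fun p => L (p.1 ∪ p.2))).card

/-- pairs of disjoint pairs -/
def q4 (V : Finset ι) (k : ℕ) : Finset ((Finset ι × Finset ι) × (Finset ι × Finset ι)) :=
  ((prs V k) ×ˢ (prs V k)).filter (fun z => Disjoint (z.1.1 ∪ z.1.2) (z.2.1 ∪ z.2.2))

theorem mem_q4 (V : Finset ι) (k : ℕ) (z : (Finset ι × Finset ι) × (Finset ι × Finset ι)) :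
    z ∈ q4 V k ↔ z.1 ∈ prs V k ∧ z.2 ∈ prs (V \ (z.1.1 ∪ z.1.2)) k := by
  obtain ⟨⟨a, b⟩, ⟨c, d⟩⟩ := z
  simp only [q4, mem_filter, mem_product, mem_prs, subset_sdiff, disjoint_union_left,
    disjoint_union_right]
  constructor
  · rintro ⟨⟨⟨⟨h1, h2⟩, ⟨h3, h4⟩, h5⟩, ⟨⟨h6, h7⟩, ⟨h8, h9⟩, h10⟩⟩, ⟨h11, h12⟩, h13, h14⟩
    exact ⟨⟨⟨h1, h2⟩, ⟨h3, h4⟩, h5⟩, ⟨⟨h6, h11.symm, h12.symm⟩, h7⟩, ⟨⟨h8, h13.symm, h14.symm⟩, h9⟩, h10⟩
  · rintro ⟨⟨⟨h1, h2⟩, ⟨h3, h4⟩, h5⟩, ⟨⟨h6, h11, h12⟩, h7⟩, ⟨⟨h8, h13, h14⟩, h9⟩, h10⟩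
    exact ⟨⟨⟨⟨h1, h2⟩, ⟨h3, h4⟩, h5⟩, ⟨⟨h6, h7⟩, ⟨h8, h9⟩, h10⟩⟩, ⟨h11.symm, h12.symm⟩, h13.symm, h14.symm⟩

/-- membership in terms of the four sets -/
theorem mem_q4' (V : Finset ι) (k : ℕ) (a b c d : Finset ι) :
    ((a, b), (c, d)) ∈ q4 V k ↔ ((a ⊆ V ∧ a.card = k) ∧ (b ⊆ V ∧ b.card = k) ∧
      (c ⊆ V ∧ c.card = k) ∧ (d ⊆ V ∧ d.card = k)) ∧ (Disjoint a b ∧ Disjoint a c ∧ Disjoint a d ∧
      Disjoint b c ∧ Disjoint b d ∧ Disjoint c d) := by
  simp only [q4, mem_filter, mem_product, mem_prs, disjoint_union_left, disjoint_union_right]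
  tauto

/-- the double sum -/
noncomputable def SS (V : Finset ι) (k : ℕ) (f g : Finset ι × Finset ι → ℝ) : ℝ :=
  ∑ p ∈ prs V k, f p * ∑ r ∈ prs (V \ (p.1 ∪ p.2)) k, g r

theorem SS_eq (V : Finset ι) (k : ℕ) (f g : Finset ι × Finset ι → ℝ) :
    SS V k f g = ∑ z ∈ q4 V k, f z.1 * g z.2 := by
  unfold SS
  rw [Finset.sum_finset_product (q4 V k) (prs V k) (fun p => prs (V \ (p.1 ∪ p.2)) k)
    (fun z => mem_q4 V k z)]
  refine sum_congr rfl fun p _ => ?_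
  rw [mul_sum]

theorem SS_comm (V : Finset ι) (k : ℕ) (f g : Finset ι × Finset ι → ℝ) :
    SS V k f g = SS V k g f := by
  rw [SS_eq, SS_eq]
  refine Finset.sum_equiv (Equiv.prodComm _ _) ?_ ?_
  · rintro ⟨⟨a, b⟩, ⟨c, d⟩⟩
    simp only [Equiv.prodComm_apply, Prod.swap_prod_mk, mem_q4']
    constructor
    · rintro ⟨⟨h1, h2, h3, h4⟩, h5, h6, h7, h8, h9, h10⟩
      exact ⟨⟨h3, h4, h1, h2⟩, h10, h6.symm, h8.symm, h7.symm, h9.symm, h5⟩
    · rintro ⟨⟨h1, h2, h3, h4⟩, h5, h6, h7, h8, h9, h10⟩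
      exact ⟨⟨h3, h4, h1, h2⟩, h10, h6.symm, h8.symm, h7.symm, h9.symm, h5⟩
  · intro z _
    simp only [Equiv.prodComm_apply, Prod.fst_swap, Prod.snd_swap]
    ring

/-- exchange of the second and the third set -/
theorem q4_mid (V : Finset ι) (k : ℕ) (F : Finset ι → Finset ι → Finset ι → Finset ι → ℝ) :
    ∑ z ∈ q4 V k, F z.1.1 z.1.2 z.2.1 z.2.2 = ∑ z ∈ q4 V k, F z.1.1 z.2.1 z.1.2 z.2.2 := by
  refine Finset.sum_equiv (Equiv.prodProdProdComm _ _ _ _) ?_ ?_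
  · rintro ⟨⟨a, b⟩, ⟨c, d⟩⟩
    simp only [Equiv.prodProdProdComm_apply, mem_q4']
    constructor
    · rintro ⟨⟨h1, h2, h3, h4⟩, h5, h6, h7, h8, h9, h10⟩
      exact ⟨⟨h1, h3, h2, h4⟩, h6, h5, h7, h8.symm, h10, h9⟩
    · rintro ⟨⟨h1, h2, h3, h4⟩, h5, h6, h7, h8, h9, h10⟩
      exact ⟨⟨h1, h3, h2, h4⟩, h6, h5, h7, h8.symm, h10, h9⟩
  · rintro ⟨⟨a, b⟩, ⟨c, d⟩⟩ _
    simp only [Equiv.prodProdProdComm_apply]

/-- exchange of the first two sets -/
theorem q4_fst (V : Finset ι) (k : ℕ) (F : Finset ι → Finset ι → Finset ι → Finset ι → ℝ) :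
    ∑ z ∈ q4 V k, F z.1.1 z.1.2 z.2.1 z.2.2 = ∑ z ∈ q4 V k, F z.1.2 z.1.1 z.2.1 z.2.2 := by
  refine Finset.sum_equiv (Equiv.prodCongr (Equiv.prodComm _ _) (Equiv.refl _)) ?_ ?_
  · rintro ⟨⟨a, b⟩, ⟨c, d⟩⟩
    simp only [Equiv.prodCongr_apply, Equiv.coe_prodComm, Equiv.coe_refl, Prod.map_apply,
      Prod.swap_prod_mk, id_eq, mem_q4']
    constructor
    · rintro ⟨⟨h1, h2, h3, h4⟩, h5, h6, h7, h8, h9, h10⟩
      exact ⟨⟨h2, h1, h3, h4⟩, h5.symm, h8, h9, h6, h7, h10⟩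
    · rintro ⟨⟨h1, h2, h3, h4⟩, h5, h6, h7, h8, h9, h10⟩
      exact ⟨⟨h2, h1, h3, h4⟩, h5.symm, h8, h9, h6, h7, h10⟩
  · rintro ⟨⟨a, b⟩, ⟨c, d⟩⟩ _
    simp only [Equiv.prodCongr_apply, Equiv.coe_prodComm, Equiv.coe_refl, Prod.map_apply,
      Prod.swap_prod_mk, id_eq]

/-- exchange of the last two sets -/
theorem q4_snd (V : Finset ι) (k : ℕ) (F : Finset ι → Finset ι → Finset ι → Finset ι → ℝ) :
    ∑ z ∈ q4 V k, F z.1.1 z.1.2 z.2.1 z.2.2 = ∑ z ∈ q4 V k, F z.1.1 z.1.2 z.2.2 z.2.1 := by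
  refine Finset.sum_equiv (Equiv.prodCongr (Equiv.refl _) (Equiv.prodComm _ _)) ?_ ?_
  · rintro ⟨⟨a, b⟩, ⟨c, d⟩⟩
    simp only [Equiv.prodCongr_apply, Equiv.coe_prodComm, Equiv.coe_refl, Prod.map_apply,
      Prod.swap_prod_mk, id_eq, mem_q4']
    constructor
    · rintro ⟨⟨h1, h2, h3, h4⟩, h5, h6, h7, h8, h9, h10⟩
      exact ⟨⟨h1, h2, h4, h3⟩, h5, h7, h6, h9, h8, h10.symm⟩
    · rintro ⟨⟨h1, h2, h3, h4⟩, h5, h6, h7, h8, h9, h10⟩
      exact ⟨⟨h1, h2, h4, h3⟩, h5, h7, h6, h9, h8, h10.symm⟩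
  · rintro ⟨⟨a, b⟩, ⟨c, d⟩⟩ _
    simp only [Equiv.prodCongr_apply, Equiv.coe_prodComm, Equiv.coe_refl, Prod.map_apply,
      Prod.swap_prod_mk, id_eq]

/-- re-pairing: `#(mixed, mixed) = 4 #(NN, PP)`, `n` an arbitrary weight -/
theorem repair (V : Finset ι) (k : ℕ) (n : Finset ι → ℝ) :
    SS V k (fun p => n p.1 * (1 - n p.2) + (1 - n p.1) * n p.2)
      (fun p => n p.1 * (1 - n p.2) + (1 - n p.1) * n p.2) =
    4 * SS V k (fun p => n p.1 * n p.2) (fun p => (1 - n p.1) * (1 - n p.2)) := by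
  rw [SS_eq, SS_eq]
  have e1 := q4_mid V k (fun a b c d => n a * n b * ((1 - n c) * (1 - n d)))
  have e2 := q4_snd V k (fun a b c d => n a * n c * ((1 - n b) * (1 - n d)))
  have e3 := q4_fst V k (fun a b c d => n a * n c * ((1 - n b) * (1 - n d)))
  have e4 := q4_fst V k (fun a b c d => n a * n d * ((1 - n b) * (1 - n c)))
  beta_reduce at e1 e2 e3 e4
  have h : ∀ z ∈ q4 V k, (n z.1.1 * (1 - n z.1.2) + (1 - n z.1.1) * n z.1.2) *
      (n z.2.1 * (1 - n z.2.2) + (1 - n z.2.1) * n z.2.2) =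
      (n z.1.1 * n z.2.1 * ((1 - n z.1.2) * (1 - n z.2.2)) +
      n z.1.1 * n z.2.2 * ((1 - n z.1.2) * (1 - n z.2.1))) +
      (n z.1.2 * n z.2.1 * ((1 - n z.1.1) * (1 - n z.2.2)) +
      n z.1.2 * n z.2.2 * ((1 - n z.1.1) * (1 - n z.2.1))) := by
    intro z _
    ring
  rw [sum_congr rfl h, sum_add_distrib, sum_add_distrib, sum_add_distrib]
  linarith [e1, e2, e3, e4]

/-- the indicator of a proposition -/
noncomputable def ii (P : Prop) [Decidable P] : ℝ := if P then 1 else 0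

theorem ii_nonneg (P : Prop) [Decidable P] : 0 ≤ ii P := by
  unfold ii; split_ifs <;> norm_num

theorem ii_le (P : Prop) [Decidable P] : ii P ≤ 1 := by
  unfold ii; split_ifs <;> norm_num

theorem card_ii {α : Type} (s : Finset α) (P : α → Prop) [DecidablePred P] :
    ((s.filter P).card : ℝ) = ∑ a ∈ s, ii (P a) := by
  unfold ii
  rw [Finset.card_filter]
  push_cast
  rfl

theorem SS_mono (V : Finset ι) (k : ℕ) (f g f' g' : Finset ι × Finset ι → ℝ)
    (hf : ∀ p ∈ prs V k, 0 ≤ f p ∧ f p ≤ f' p) (hg : ∀ p ∈ prs V k, 0 ≤ g p ∧ g p ≤ g' p) :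
    SS V k f g ≤ SS V k f' g' := by
  rw [SS_eq, SS_eq]
  refine sum_le_sum fun z hz => ?_
  have h1 : z.1 ∈ prs V k := (mem_product.1 (mem_filter.1 hz).1).1
  have h2 : z.2 ∈ prs V k := (mem_product.1 (mem_filter.1 hz).1).2
  exact mul_le_mul (hf _ h1).2 (hg _ h2).2 (hg _ h2).1 ((hf _ h1).1.trans (hf _ h1).2)

theorem SS_nonneg (V : Finset ι) (k : ℕ) (f g : Finset ι × Finset ι → ℝ)
    (hf : ∀ p ∈ prs V k, 0 ≤ f p) (hg : ∀ p ∈ prs V k, 0 ≤ g p) :
    0 ≤ SS V k f g := by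
  rw [SS_eq]
  refine sum_nonneg fun z hz => ?_
  have h1 : z.1 ∈ prs V k := (mem_product.1 (mem_filter.1 hz).1).1
  have h2 : z.2 ∈ prs V k := (mem_product.1 (mem_filter.1 hz).1).2
  exact mul_nonneg (hf _ h1) (hg _ h2)

theorem SS_add_right (V : Finset ι) (k : ℕ) (f g h : Finset ι × Finset ι → ℝ) :
    SS V k f (fun p => g p + h p) = SS V k f g + SS V k f h := by
  rw [SS_eq, SS_eq, SS_eq, ← sum_add_distrib]
  refine sum_congr rfl fun z _ => ?_
  ring

theorem SS_add_left (V : Finset ι) (k : ℕ) (f g h : Finset ι × Finset ι → ℝ) :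
    SS V k (fun p => f p + h p) g = SS V k f g + SS V k h g := by
  rw [SS_eq, SS_eq, SS_eq, ← sum_add_distrib]
  refine sum_congr rfl fun z _ => ?_
  ring

theorem SS_congr (V : Finset ι) (k : ℕ) (f g f' g' : Finset ι × Finset ι → ℝ)
    (hf : ∀ p ∈ prs V k, f p = f' p) (hg : ∀ p ∈ prs V k, g p = g' p) :
    SS V k f g = SS V k f' g' := by
  rw [SS_eq, SS_eq]
  refine sum_congr rfl fun z hz => ?_
  have h1 : z.1 ∈ prs V k := (mem_product.1 (mem_filter.1 hz).1).1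
  have h2 : z.2 ∈ prs V k := (mem_product.1 (mem_filter.1 hz).1).2
  rw [hf _ h1, hg _ h2]

theorem SS_smul_right (V : Finset ι) (k : ℕ) (f g : Finset ι × Finset ι → ℝ) (c : ℝ) :
    SS V k f (fun p => c * g p) = c * SS V k f g := by
  rw [SS_eq, SS_eq, mul_sum]
  refine sum_congr rfl fun z _ => ?_
  ring

theorem union_mem (V : Finset ι) (k : ℕ) (p : Finset ι × Finset ι) (hp : p ∈ prs V k) :
    p.1 ∪ p.2 ∈ V.powersetCard (2 * k) := by
  obtain ⟨⟨h1, h2⟩, ⟨h3, h4⟩, h5⟩ := (mem_prs V k p).1 hp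
  rw [mem_powersetCard, card_union_of_disjoint h5]
  exact ⟨union_subset h1 h3, by omega⟩

/-- first coordinates -/
theorem sum_fst (V : Finset ι) (k : ℕ) (g : Finset ι → ℝ) :
    ∑ p ∈ prs V k, g p.1 = ((V.card - k).choose k : ℝ) * ∑ B ∈ V.powersetCard k, g B := by
  rw [Finset.sum_finset_product (prs V k) (V.powersetCard k) (fun B => (V \ B).powersetCard k)]
  · rw [mul_sum]
    refine sum_congr rfl fun B hB => ?_
    rw [mem_powersetCard] at hB
    simp only [sum_const, card_powersetCard, card_sdiff_of_subset hB.1, hB.2, nsmul_eq_mul]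
  · intro p
    rw [mem_prs, mem_powersetCard, mem_powersetCard, subset_sdiff]
    constructor
    · rintro ⟨h1, ⟨h2, h3⟩, h4⟩
      exact ⟨h1, ⟨h2, h4.symm⟩, h3⟩
    · rintro ⟨h1, ⟨h2, h4⟩, h3⟩
      exact ⟨h1, ⟨h2, h3⟩, h4.symm⟩

theorem sum_swap (V : Finset ι) (k : ℕ) (F : Finset ι → Finset ι → ℝ) :
    ∑ p ∈ prs V k, F p.1 p.2 = ∑ p ∈ prs V k, F p.2 p.1 := by
  refine Finset.sum_equiv (Equiv.prodComm _ _) ?_ ?_
  · intro p
    simp only [Equiv.prodComm_apply, mem_prs, Prod.fst_swap, Prod.snd_swap]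
    constructor
    · rintro ⟨h1, h2, h3⟩
      exact ⟨h2, h1, h3.symm⟩
    · rintro ⟨h1, h2, h3⟩
      exact ⟨h2, h1, h3.symm⟩
  · intro p _
    simp only [Equiv.prodComm_apply, Prod.fst_swap, Prod.snd_swap]

theorem card_prs (V : Finset ι) (k : ℕ) :
    ((prs V k).card : ℝ) = ((V.card - k).choose k : ℝ) * (V.card.choose k : ℝ) := by
  have h := sum_fst V k (fun _ => (1 : ℝ))
  simpa using h

theorem ii_and (P Q : Prop) [Decidable P] [Decidable Q] : ii (P ∧ Q) = ii P * ii Q := by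
  unfold ii
  by_cases hP : P <;> by_cases hQ : Q <;> simp [hP, hQ]

/-- the chain with error terms -/
theorem chain_err (V : Finset ι) (k T : ℕ) (hk : 1 ≤ k) (hV : V.card = 4 * k + T)
    (N L : Finset ι → Prop) [DecidablePred N] [DecidablePred L] (lam : ℝ) (e1 e2 : Finset ι → ℝ)
    (h1 : ∀ p ∈ prs V k, N p.1 → N p.2 → L (p.1 ∪ p.2))
    (h2 : ∀ p ∈ prs V k, ¬ N p.1 → ¬ N p.2 → ¬ L (p.1 ∪ p.2))
    (QL : ∀ U ∈ V.powersetCard (2 * k), L U →
      (2 * k + T) * (nnC N (V \ U) k : ℝ) - T * ((prs (V \ U) k).card : ℝ) ≤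
        lam * (2 * k + T) * ((hhC L (V \ U) k : ℝ) - nnC N (V \ U) k) + e1 U)
    (HL : ∀ W ∈ V.powersetCard (2 * k), L W →
      lam * (nnC N (V \ W) k : ℝ) + e2 W ≤ (3 / 2 - T / (4 * (2 * k + T))) *
        (2 * ((prs (V \ W) k).card : ℝ) - hhC L (V \ W) k - nnC N (V \ W) k))
    (hE : ∑ p ∈ (prs V k).filter (fun p => N p.1 ∧ N p.2), e1 (p.1 ∪ p.2) ≤
      (2 * k + T) * ∑ p ∈ (prs V k).filter (fun p => L (p.1 ∪ p.2) ∧ ¬ (N p.1 ∧ N p.2)),
        e2 (p.1 ∪ p.2)) :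
    (k : ℝ) / (4 * k + T) * ((4 * k + T).choose k : ℝ) ≤
      (((V.powersetCard k).filter (fun B => ¬ N B)).card : ℝ) := by
  obtain ⟨n, hn⟩ : ∃ n : Finset ι → ℝ, n = fun B => ii (N B) := ⟨_, rfl⟩
  obtain ⟨l, hl⟩ : ∃ l : Finset ι × Finset ι → ℝ, l = fun p => ii (L (p.1 ∪ p.2)) := ⟨_, rfl⟩
  obtain ⟨a, ha⟩ : ∃ a : Finset ι × Finset ι → ℝ, a = fun p => n p.1 * n p.2 := ⟨_, rfl⟩
  obtain ⟨b, hb⟩ : ∃ b : Finset ι × Finset ι → ℝ, b = fun p => (1 - n p.1) * (1 - n p.2) :=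
    ⟨_, rfl⟩
  obtain ⟨c, hc⟩ : ∃ c : Finset ι × Finset ι → ℝ,
    c = fun p => n p.1 * (1 - n p.2) + (1 - n p.1) * n p.2 := ⟨_, rfl⟩
  obtain ⟨y, hy⟩ : ∃ y : Finset ι × Finset ι → ℝ, y = fun p => l p - a p := ⟨_, rfl⟩
  obtain ⟨z, hz⟩ : ∃ z : Finset ι × Finset ι → ℝ, z = fun p => c p - y p := ⟨_, rfl⟩
  have n01 : ∀ B, n B = 0 ∨ n B = 1 := by
    intro B
    rw [hn]; unfold ii
    by_cases h : N B
    · right; simp [h]
    · left; simp [h]
  have l01 : ∀ p, l p = 0 ∨ l p = 1 := by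
    intro p
    rw [hl]; unfold ii
    by_cases h : L (p.1 ∪ p.2)
    · right; simp [h]
    · left; simp [h]
  have n1 : ∀ B, n B = 1 ↔ N B := by
    intro B
    rw [hn]; unfold ii
    by_cases h : N B <;> simp [h]
  have l1 : ∀ p, l p = 1 ↔ L (p.1 ∪ p.2) := by
    intro p
    rw [hl]; unfold ii
    by_cases h : L (p.1 ∪ p.2) <;> simp [h]
  have abc : ∀ p, a p + (b p + c p) = 1 := by
    intro p
    rw [ha, hb, hc]; ring
  have a0 : ∀ p, 0 ≤ a p := by
    intro p; rw [ha]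
    rcases n01 p.1 with h | h <;> rcases n01 p.2 with h' | h' <;> simp [h, h']
  have b0 : ∀ p, 0 ≤ b p := by
    intro p; rw [hb]
    rcases n01 p.1 with h | h <;> rcases n01 p.2 with h' | h' <;> simp [h, h']
  have c0 : ∀ p, 0 ≤ c p := by
    intro p; rw [hc]
    rcases n01 p.1 with h | h <;> rcases n01 p.2 with h' | h' <;> simp [h, h']
  -- the nonnegative mixed part
  have yz : ∀ p ∈ prs V k, 0 ≤ y p ∧ y p ≤ c p := by
    intro p hp
    have g1 := h1 p hp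
    have g2 := h2 p hp
    rw [← n1, ← n1, ← l1] at g1 g2
    have ea : a p = n p.1 * n p.2 := by rw [ha]
    have ec : c p = n p.1 * (1 - n p.2) + (1 - n p.1) * n p.2 := by rw [hc]
    have ey : y p = l p - a p := by rw [hy]
    rw [ey, ec, ea]
    rcases n01 p.1 with h | h <;> rcases n01 p.2 with h' | h'
    · have h3 : ¬ l p = 1 := g2 (by rw [h]; norm_num) (by rw [h']; norm_num)
      rw [h, h', (l01 p).resolve_right h3]; norm_num
    · rcases l01 p with h'' | h'' <;> rw [h, h', h''] <;> norm_num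
    · rcases l01 p with h'' | h'' <;> rw [h, h', h''] <;> norm_num
    · rw [h, h', g1 h h']; norm_num
  -- sums over `C`
  have hnn : ∀ C : Finset ι, (nnC N C k : ℝ) = ∑ p ∈ prs C k, a p := by
    intro C
    unfold nnC
    rw [card_ii]
    refine sum_congr rfl fun p _ => ?_
    rw [ii_and, ha, hn]
  have hhh : ∀ C : Finset ι, (hhC L C k : ℝ) = ∑ p ∈ prs C k, l p := by
    intro C
    unfold hhC
    rw [card_ii]
    refine sum_congr rfl fun p _ => ?_
    rw [hl]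
  obtain ⟨R, hR⟩ : ∃ R : ℝ, R = ((k + T).choose k : ℝ) * ((2 * k + T).choose k : ℝ) := ⟨_, rfl⟩
  have hRpos : 0 < R := by
    rw [hR]
    have e1 : 0 < (k + T).choose k := Nat.choose_pos (by omega)
    have e2 : 0 < (2 * k + T).choose k := Nat.choose_pos (by omega)
    positivity
  have hRp : ∀ U ∈ V.powersetCard (2 * k), ((prs (V \ U) k).card : ℝ) = R := by
    intro U hU
    rw [mem_powersetCard] at hU
    rw [card_prs, card_sdiff_of_subset hU.1, hU.2, hV, hR]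
    rw [show 4 * k + T - 2 * k - k = k + T by omega, show 4 * k + T - 2 * k = 2 * k + T by omega]
  have hS1 : ∀ f : Finset ι × Finset ι → ℝ, SS V k f (fun _ => 1) = R * ∑ p ∈ prs V k, f p := by
    intro f
    unfold SS
    rw [mul_sum]
    refine sum_congr rfl fun p hp => ?_
    rw [sum_const, nsmul_eq_mul, hRp _ (union_mem V k p hp)]
    ring
  have hSabc : ∀ f : Finset ι × Finset ι → ℝ, R * ∑ p ∈ prs V k, f p =
      SS V k f a + (SS V k f b + SS V k f c) := by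
    intro f
    rw [← hS1, ← SS_add_right, ← SS_add_right]
    exact SS_congr V k _ _ _ _ (fun _ _ => rfl) (fun p _ => (abc p).symm)
  have hm0 : (0 : ℝ) < 2 * k + T := by
    have : (1 : ℝ) ≤ k := by exact_mod_cast hk
    have : (0 : ℝ) ≤ T := Nat.cast_nonneg T
    linarith
  -- step A
  have stepA : (2 * k + T) * SS V k a a - T * (R * ∑ p ∈ prs V k, a p) ≤
      lam * (2 * k + T) * SS V k a y + ∑ p ∈ prs V k, a p * e1 (p.1 ∪ p.2) := by
    have key : ∀ p ∈ prs V k, a p * ((2 * k + T) * ∑ r ∈ prs (V \ (p.1 ∪ p.2)) k, a r - T * R) ≤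
        a p * (lam * (2 * k + T) * ∑ r ∈ prs (V \ (p.1 ∪ p.2)) k, y r + e1 (p.1 ∪ p.2)) := by
      intro p hp
      have ea : a p = n p.1 * n p.2 := by rw [ha]
      by_cases hN : N p.1 ∧ N p.2
      · have hU := union_mem V k p hp
        have hq := QL _ hU (h1 p hp hN.1 hN.2)
        rw [hnn, hhh, hRp _ hU] at hq
        have hy' : ∑ r ∈ prs (V \ (p.1 ∪ p.2)) k, y r =
            ∑ r ∈ prs (V \ (p.1 ∪ p.2)) k, l r - ∑ r ∈ prs (V \ (p.1 ∪ p.2)) k, a r := by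
          rw [hy, sum_sub_distrib]
        rw [hy']
        refine mul_le_mul_of_nonneg_left ?_ (a0 p)
        linarith
      · have h0 : a p = 0 := by
          rw [ea]
          rcases n01 p.1 with h | h
          · rw [h, zero_mul]
          · rcases n01 p.2 with h' | h'
            · rw [h', mul_zero]
            · exact absurd ⟨(n1 _).1 h, (n1 _).1 h'⟩ hN
        rw [h0, zero_mul, zero_mul]
    have e1' := sum_le_sum key
    have e2' : ∑ p ∈ prs V k, a p * ((2 * k + T) * ∑ r ∈ prs (V \ (p.1 ∪ p.2)) k, a r - T * R) =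
        (2 * k + T) * SS V k a a - T * (R * ∑ p ∈ prs V k, a p) := by
      unfold SS
      rw [mul_sum, mul_sum, mul_sum, ← sum_sub_distrib]
      refine sum_congr rfl fun p _ => ?_
      ring
    have e3' : ∑ p ∈ prs V k, a p * (lam * (2 * k + T) * ∑ r ∈ prs (V \ (p.1 ∪ p.2)) k, y r +
        e1 (p.1 ∪ p.2)) = lam * (2 * k + T) * SS V k a y + ∑ p ∈ prs V k, a p * e1 (p.1 ∪ p.2) := by
      unfold SS
      rw [mul_sum, ← sum_add_distrib]
      refine sum_congr rfl fun p _ => ?_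
      ring
    rw [e2', e3'] at e1'
    exact e1'
  -- step B
  obtain ⟨th, hth⟩ : ∃ th : ℝ, th = 3 / 2 - T / (4 * (2 * k + T)) := ⟨_, rfl⟩
  have stepB : lam * SS V k y a + ∑ p ∈ prs V k, y p * e2 (p.1 ∪ p.2) ≤
      th * (2 * (R * ∑ p ∈ prs V k, y p) - SS V k y l - SS V k y a) := by
    have key : ∀ p ∈ prs V k, y p * (lam * ∑ r ∈ prs (V \ (p.1 ∪ p.2)) k, a r + e2 (p.1 ∪ p.2)) ≤
        y p * (th * (2 * R - ∑ r ∈ prs (V \ (p.1 ∪ p.2)) k, l r -
          ∑ r ∈ prs (V \ (p.1 ∪ p.2)) k, a r)) := by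
      intro p hp
      by_cases hN : L (p.1 ∪ p.2)
      · have hU := union_mem V k p hp
        have hq := HL _ hU hN
        rw [hnn, hhh, hRp _ hU, ← hth] at hq
        exact mul_le_mul_of_nonneg_left hq (yz p hp).1
      · have h0 : y p = 0 := by
          have ey : y p = l p - a p := by rw [hy]
          have h3 : l p = 0 := (l01 p).resolve_right (fun h => hN ((l1 p).1 h))
          have h4 := (yz p hp).1
          have h5 := a0 p
          rw [ey, h3] at h4 ⊢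
          linarith
        rw [h0, zero_mul, zero_mul]
    have e1' := sum_le_sum key
    have e2' : ∑ p ∈ prs V k, y p * (lam * ∑ r ∈ prs (V \ (p.1 ∪ p.2)) k, a r + e2 (p.1 ∪ p.2)) =
        lam * SS V k y a + ∑ p ∈ prs V k, y p * e2 (p.1 ∪ p.2) := by
      unfold SS
      rw [mul_sum, ← sum_add_distrib]
      refine sum_congr rfl fun p _ => ?_
      ring
    have e3' : ∑ p ∈ prs V k, y p * (th * (2 * R - ∑ r ∈ prs (V \ (p.1 ∪ p.2)) k, l r -
          ∑ r ∈ prs (V \ (p.1 ∪ p.2)) k, a r)) =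
        th * (2 * (R * ∑ p ∈ prs V k, y p) - SS V k y l - SS V k y a) := by
      unfold SS
      rw [mul_sum, mul_sum, ← sum_sub_distrib, ← sum_sub_distrib, mul_sum]
      refine sum_congr rfl fun p _ => ?_
      ring
    rw [e2', e3'] at e1'
    exact e1'
  -- the errors
  have errA : ∑ p ∈ (prs V k).filter (fun p => N p.1 ∧ N p.2), e1 (p.1 ∪ p.2) =
      ∑ p ∈ prs V k, a p * e1 (p.1 ∪ p.2) := by
    rw [sum_filter]
    refine sum_congr rfl fun p _ => ?_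
    have ea : a p = ii (N p.1 ∧ N p.2) := by rw [ha, ii_and, hn]
    rw [ea]
    unfold ii
    by_cases h : N p.1 ∧ N p.2 <;> simp [h]
  have errB : ∑ p ∈ (prs V k).filter (fun p => L (p.1 ∪ p.2) ∧ ¬ (N p.1 ∧ N p.2)),
      e2 (p.1 ∪ p.2) = ∑ p ∈ prs V k, y p * e2 (p.1 ∪ p.2) := by
    rw [sum_filter]
    refine sum_congr rfl fun p hp => ?_
    have ey : y p = ii (L (p.1 ∪ p.2)) - ii (N p.1 ∧ N p.2) := by rw [hy, hl, ha, ii_and, hn]
    have h3 := h1 p hp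
    rw [ey]
    unfold ii
    by_cases h : N p.1 ∧ N p.2
    · simp [h, h3 h.1 h.2]
    · by_cases h' : L (p.1 ∪ p.2) <;> simp [h, h']
  rw [errA, errB] at hE
  -- symmetric quantities
  have hyl : SS V k y l = SS V k y y + SS V k y a := by
    rw [← SS_add_right]
    refine SS_congr V k _ _ _ _ (fun _ _ => rfl) (fun p _ => ?_)
    rw [hy]; ring
  have hcyz : ∀ p ∈ prs V k, c p = y p + z p := by
    intro p _
    rw [hz]; ring
  have z0 : ∀ p ∈ prs V k, 0 ≤ z p := by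
    intro p hp
    have := (yz p hp).2
    rw [hz]
    simp only
    linarith
  have hyc : SS V k y c = SS V k y y + SS V k y z := by
    rw [← SS_add_right]
    exact SS_congr V k _ _ _ _ (fun _ _ => rfl) hcyz
  have hcc : SS V k c c = SS V k y y + SS V k y z + (SS V k z y + SS V k z z) := by
    rw [← SS_add_right, ← SS_add_right, ← SS_add_left]
    exact SS_congr V k _ _ _ _ hcyz hcyz
  have hzy := SS_comm V k z y
  have hzz := SS_nonneg V k z z z0 z0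
  have hyb : SS V k y b ≤ SS V k c b :=
    SS_mono V k _ _ _ _ yz (fun p _ => ⟨b0 p, le_refl _⟩)
  have hya := SS_comm V k y a
  have hrep : SS V k c c = 4 * SS V k a b := by
    rw [ha, hb, hc]
    exact repair V k n
  have hSy := hSabc y
  have hSa := hSabc a
  have hSb := hSabc b
  have hSc := hSabc c
  have hba := SS_comm V k b a
  have hca := SS_comm V k c a
  have hbc := SS_comm V k b c
  have hbb := SS_nonneg V k b b (fun p _ => b0 p) (fun p _ => b0 p)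
  have haa := SS_nonneg V k a a (fun p _ => a0 p) (fun p _ => a0 p)
  have hac := SS_nonneg V k a c (fun p _ => a0 p) (fun p _ => c0 p)
  have hab := SS_nonneg V k a b (fun p _ => a0 p) (fun p _ => b0 p)
  have hcb := SS_nonneg V k c b (fun p _ => c0 p) (fun p _ => b0 p)
  have hth0 : 0 ≤ th := by
    rw [hth]
    have h3 : (T : ℝ) / (4 * (2 * k + T)) ≤ 3 / 2 := by
      rw [div_le_iff₀ (by positivity)]
      have : (0 : ℝ) ≤ k := Nat.cast_nonneg k
      have : (0 : ℝ) ≤ T := Nat.cast_nonneg T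
      linarith
    linarith
  have hmth : (2 * k + T) * th = 3 / 2 * (2 * k + T) - T / 4 := by
    rw [hth]
    field_simp
  -- the reduction
  have main1 : lam * SS V k a y + ∑ p ∈ prs V k, y p * e2 (p.1 ∪ p.2) ≤
      th * (4 * SS V k a b + 2 * SS V k c b) := by
    rw [← hya]
    refine stepB.trans (mul_le_mul_of_nonneg_left ?_ hth0)
    rw [hSy, hyl, hyc]
    linarith
  have main2 : (2 * k + T) * SS V k a a ≤ T * (R * ∑ p ∈ prs V k, a p) +
      (3 / 2 * (2 * k + T) - T / 4) * (4 * SS V k a b + 2 * SS V k c b) := by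
    rw [← hmth]
    have h3 := mul_le_mul_of_nonneg_left main1 hm0.le
    have h4 : (2 * k + T) * (lam * SS V k a y + ∑ p ∈ prs V k, y p * e2 (p.1 ∪ p.2)) =
      lam * (2 * k + T) * SS V k a y + (2 * k + T) * ∑ p ∈ prs V k, y p * e2 (p.1 ∪ p.2) := by ring
    rw [h4] at h3
    have h5 : (2 * k + T) * (th * (4 * SS V k a b + 2 * SS V k c b)) =
      (2 * k + T) * th * (4 * SS V k a b + 2 * SS V k c b) := by ring
    rw [h5] at h3
    linarith
  have hT0 : (0 : ℝ) ≤ T := Nat.cast_nonneg T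
  have hk0 : (0 : ℝ) ≤ k := Nat.cast_nonneg k
  have main3 : 2 * k * (R * ∑ p ∈ prs V k, a p + (R * ∑ p ∈ prs V k, b p +
      R * ∑ p ∈ prs V k, c p)) ≤ (4 * k + T) * (2 * (R * ∑ p ∈ prs V k, b p) +
      R * ∑ p ∈ prs V k, c p) := by
    rw [hSa] at main2
    rw [hSa, hSb, hSc, hba, hca, hbc, hrep]
    have t1 : 0 ≤ T * SS V k c b := mul_nonneg hT0 hcb
    have t2 : 0 ≤ k * SS V k c b := mul_nonneg hk0 hcb
    have t3 : 0 ≤ T * SS V k b b := mul_nonneg hT0 hbb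
    have t4 : 0 ≤ k * SS V k b b := mul_nonneg hk0 hbb
    nlinarith [main2, t1, t2, t3, t4]
  -- the count
  have cnt : 2 * ∑ p ∈ prs V k, b p + ∑ p ∈ prs V k, c p =
      2 * (((V.card - k).choose k : ℝ) * (((V.powersetCard k).filter (fun B => ¬ N B)).card : ℝ)) := by
    have g1 := sum_fst V k (fun B => 1 - n B)
    have g2 := sum_swap V k (fun B _ => 1 - n B)
    have g3 : (((V.powersetCard k).filter (fun B => ¬ N B)).card : ℝ) =
        ∑ B ∈ V.powersetCard k, (1 - n B) := by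
      rw [card_ii]
      refine sum_congr rfl fun B _ => ?_
      rw [hn]
      unfold ii
      by_cases h : N B <;> simp [h]
    have g4 : 2 * ∑ p ∈ prs V k, (1 - n p.1) = ∑ p ∈ prs V k, ((1 - n p.1) + (1 - n p.2)) := by
      rw [sum_add_distrib]
      linarith [g2]
    rw [g3, ← g1, g4, mul_sum, ← sum_add_distrib]
    refine sum_congr rfl fun p _ => ?_
    rw [hb, hc]
    ring
  have hone : ∑ p ∈ prs V k, a p + (∑ p ∈ prs V k, b p + ∑ p ∈ prs V k, c p) =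
      ((V.card - k).choose k : ℝ) * (V.card.choose k : ℝ) := by
    rw [← card_prs, ← sum_add_distrib, ← sum_add_distrib]
    rw [sum_congr rfl (fun p _ => abc p)]
    simp
  have hch : 0 < ((V.card - k).choose k : ℝ) := by
    have : 0 < (V.card - k).choose k := Nat.choose_pos (by omega)
    exact_mod_cast this
  obtain ⟨P, hP⟩ : ∃ P : ℝ, P = (((V.powersetCard k).filter (fun B => ¬ N B)).card : ℝ) := ⟨_, rfl⟩
  rw [← hP] at cnt ⊢
  have main4 : 2 * k * (((V.card - k).choose k : ℝ) * (V.card.choose k : ℝ)) ≤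
      (4 * k + T) * (2 * (((V.card - k).choose k : ℝ) * P)) := by
    rw [← cnt, ← hone]
    refine le_of_mul_le_mul_left ?_ hRpos
    linarith
  rw [hV] at main4
  rw [hV] at hch
  have hn0 : (0 : ℝ) < 4 * k + T := by linarith
  rw [div_mul_eq_mul_div, div_le_iff₀ hn0]
  refine le_of_mul_le_mul_left ?_ hch
  linarith

/-- the chain -/
theorem chain (V : Finset ι) (k T : ℕ) (hk : 1 ≤ k) (hV : V.card = 4 * k + T)
    (N L : Finset ι → Prop) [DecidablePred N] [DecidablePred L] (lam : ℝ)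
    (h1 : ∀ p ∈ prs V k, N p.1 → N p.2 → L (p.1 ∪ p.2))
    (h2 : ∀ p ∈ prs V k, ¬ N p.1 → ¬ N p.2 → ¬ L (p.1 ∪ p.2))
    (QL : ∀ U ∈ V.powersetCard (2 * k), L U →
      (2 * k + T) * (nnC N (V \ U) k : ℝ) - T * ((prs (V \ U) k).card : ℝ) ≤
        lam * (2 * k + T) * ((hhC L (V \ U) k : ℝ) - nnC N (V \ U) k))
    (HL : ∀ W ∈ V.powersetCard (2 * k), L W →
      lam * (nnC N (V \ W) k : ℝ) ≤ (3 / 2 - T / (4 * (2 * k + T))) *
        (2 * ((prs (V \ W) k).card : ℝ) - hhC L (V \ W) k - nnC N (V \ W) k)) :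
    (k : ℝ) / (4 * k + T) * ((4 * k + T).choose k : ℝ) ≤
      (((V.powersetCard k).filter (fun B => ¬ N B)).card : ℝ) := by
  refine chain_err V k T hk hV N L lam (fun _ => 0) (fun _ => 0) h1 h2 ?_ ?_ ?_
  · intro U hU hL
    have := QL U hU hL
    linarith
  · intro W hW hL
    have := HL W hW hL
    linarith
  · simp

end Pool.Agent.Work.MP_9999b5_ch
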